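import Pool.Agent.H33R3.Bom.Stmts

/-! Project H33-BOM, TaskI2 (helper133): rotation and conclusion. -/

set_option autoImplicit false

namespace Pool.Agent.H133R3.Bom

open Complex Metric Set Filter Topology Pool.Agent.H33R3.Bom

lemma iter (u w : ℂ) (f : ℂ → ℂ) (n : ℕ) :
    iteratedDeriv n (fun z => u * f (w * z)) = fun z => u * w ^ n * iteratedDeriv n f (w * z) := by
  induction n with
  | zero =>
    funext z
    simp
  | succ n ih =>
    rw [iteratedDeriv_succ, ih]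
    funext z
    have h1 := deriv_comp_mul_left w (iteratedDeriv n f) z
    rw [deriv_const_mul_field, h1, smul_eq_mul, iteratedDeriv_succ]
    ring

lemma coeff_rot (w : ℂ) (hw : w ≠ 0) (f : ℂ → ℂ) (n : ℕ) :
    coeff (n + 1) (fun z => w⁻¹ * f (w * z)) = w ^ n * coeff (n + 1) f := by
  unfold coeff
  rw [iter]
  simp only [mul_zero]
  rw [pow_succ]
  field_simp

lemma rot_inS {f : ℂ → ℂ} (hf : InS f) {w : ℂ} (hw : ‖w‖ = 1) :
    InS (fun z => w⁻¹ * f (w * z)) := by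
  have hw0 : w ≠ 0 := by
    intro h
    rw [h] at hw
    simp at hw
  have hmaps : ∀ z ∈ ball (0 : ℂ) 1, w * z ∈ ball (0 : ℂ) 1 := by
    intro z hz
    rw [mem_ball_zero_iff] at hz ⊢
    rw [norm_mul, hw, one_mul]
    exact hz
  refine ⟨?_, ?_, ?_, ?_⟩
  · have h1 : DifferentiableOn ℂ (fun z => w * z) (ball (0 : ℂ) 1) := by fun_prop
    exact (hf.diff.comp h1 hmaps).const_mul _
  · intro z hz z' hz' h
    have h1 : f (w * z) = f (w * z') := mul_left_cancel₀ (inv_ne_zero hw0) h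
    exact mul_left_cancel₀ hw0 (hf.inj (hmaps z hz) (hmaps z' hz') h1)
  · simp [hf.zero]
  · have h1 := congrFun (iter w⁻¹ w f 1) 0
    rw [iteratedDeriv_one, iteratedDeriv_one] at h1
    rw [h1]
    simp only [mul_zero, hf.one, pow_one, mul_one]
    exact inv_mul_cancel₀ hw0

lemma exists_rot (a : ℂ) : ∃ w : ℂ, ‖w‖ = 1 ∧ w * a = ‖a‖ := by
  by_cases ha : a = 0
  · exact ⟨1, by simp, by simp [ha]⟩
  · have hn : (‖a‖ : ℂ) ≠ 0 := by
      exact_mod_cast (norm_ne_zero_iff.2 ha)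
    refine ⟨‖a‖ / a, ?_, ?_⟩
    · rw [norm_div]
      simp
      exact ha
    · field_simp

lemma final_ineq (b : ℂ) (n : ℕ) (hn : 2 ≤ n) (ε : ℝ) (hε : 0 ≤ ε)
    (h1 : |((n : ℂ) - b).re| ≤ 10 ^ 6 * (n : ℝ) ^ 6 * ε)
    (h2 : b.im ^ 2 ≤ 10 ^ 7 * (n : ℝ) ^ 10 * ε) :
    |(n : ℝ) - ‖b‖| ≤ 10 ^ 8 * (n : ℝ) ^ 9 * ε := by
  have hn1 : (1 : ℝ) ≤ n := by
    have : 1 ≤ n := by omega
    exact_mod_cast this
  have hn0 : (0 : ℝ) < n := by linarith
  have h3 : ((n : ℂ) - b).re = n - b.re := by simp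
  rw [h3] at h1
  have hre : b.re ≤ ‖b‖ := Complex.re_le_norm b
  have hab := abs_le.1 h1
  have hpow : (n : ℝ) ^ 6 ≤ (n : ℝ) ^ 9 := pow_le_pow_right₀ hn1 (by norm_num)
  have hp9 : 0 < (n : ℝ) ^ 9 := by positivity
  have e1 : 10 ^ 6 * (n : ℝ) ^ 6 * ε ≤ 10 ^ 6 * (n : ℝ) ^ 9 * ε := by gcongr
  have e2 : 0 ≤ (n : ℝ) ^ 9 * ε := by positivity
  rw [abs_le]
  constructor
  · -- ‖b‖ - n ≤ ...
    by_cases hle : ‖b‖ ≤ n
    · have : 0 ≤ 10 ^ 8 * (n : ℝ) ^ 9 * ε := by positivity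
      linarith
    · push Not at hle
      have hsq : ‖b‖ ^ 2 = b.re ^ 2 + b.im ^ 2 := by
        rw [← Complex.normSq_eq_norm_sq, Complex.normSq_apply]
        ring
      have h5 : (‖b‖ - n) * (‖b‖ + n) = (b.re - n) * (b.re + n) + b.im ^ 2 := by
        nlinarith
      have h6 : (b.re - n) * (b.re + n) ≤ 10 ^ 6 * (n : ℝ) ^ 9 * ε * (‖b‖ + n) := by
        have h7 : |b.re - n| ≤ 10 ^ 6 * (n : ℝ) ^ 9 * ε := by
          rw [abs_sub_comm]
          exact h1.trans e1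
        have h8 : |b.re + n| ≤ ‖b‖ + n := by
          have h9 := Complex.abs_re_le_norm b
          calc |b.re + n| ≤ |b.re| + |(n : ℝ)| := abs_add_le _ _
            _ ≤ ‖b‖ + n := by rw [abs_of_pos hn0]; linarith
        calc (b.re - n) * (b.re + n) ≤ |(b.re - n) * (b.re + n)| := le_abs_self _
          _ = |b.re - n| * |b.re + n| := abs_mul _ _
          _ ≤ 10 ^ 6 * (n : ℝ) ^ 9 * ε * (‖b‖ + n) :=
            mul_le_mul h7 h8 (abs_nonneg _) (by positivity)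
      have h10 : b.im ^ 2 ≤ 10 ^ 7 * (n : ℝ) ^ 9 * ε * (‖b‖ + n) := by
        calc b.im ^ 2 ≤ 10 ^ 7 * (n : ℝ) ^ 10 * ε := h2
          _ = 10 ^ 7 * (n : ℝ) ^ 9 * ε * n := by ring
          _ ≤ 10 ^ 7 * (n : ℝ) ^ 9 * ε * (‖b‖ + n) := by
              gcongr
              have := norm_nonneg b
              linarith
      have hpos : 0 < ‖b‖ + n := by
        have := norm_nonneg b
        linarith
      have h11 : (‖b‖ - n) * (‖b‖ + n) ≤ 10 ^ 8 * (n : ℝ) ^ 9 * ε * (‖b‖ + n) := by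
        rw [h5]
        have h12 : 0 ≤ (n : ℝ) ^ 9 * ε * (‖b‖ + n) := by positivity
        nlinarith
      have h13 := le_of_mul_le_mul_right h11 hpos
      linarith
  · have h5 : (n : ℝ) - b.re ≤ 10 ^ 6 * (n : ℝ) ^ 6 * ε := hab.2
    nlinarith

/-- Task I2 -/
theorem taskI2 : TaskI2 := by
  intro hA hB hC f hf n hn
  constructor
  · obtain ⟨Y, hY, hfY, hep⟩ := hA f hf
    have h1 := (hC f Y hf hY hfY n hn).1
    rw [hep] at h1
    simpa using h1
  · obtain ⟨w, hw1, hw2⟩ := exists_rot (coeff 2 f)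
    have hw0 : w ≠ 0 := by
      intro h
      rw [h] at hw1
      simp at hw1
    have hg := rot_inS hf hw1
    obtain ⟨Y, hY, hfY, hep⟩ := hA _ hg
    have h1 := hC _ Y hg hY hfY n hn
    have hε := (hB Y hY).1
    have h2 : coeff 2 (fun z => w⁻¹ * f (w * z)) = ‖coeff 2 f‖ := by
      rw [coeff_rot w hw0 f 1, pow_one, hw2]
    rw [h2] at hep
    simp only [Complex.ofReal_re] at hep
    obtain ⟨m, rfl⟩ : ∃ m, n = m + 1 := ⟨n - 1, by omega⟩
    have h3 := final_ineq _ (m + 1) hn (ep Y) hε h1.1 h1.2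
    rw [coeff_rot w hw0 f m, norm_mul, norm_pow, hw1, one_pow, one_mul, hep] at h3
    exact h3

end Pool.Agent.H133R3.Bom
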